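import Pool.Agent.N600.L3.Stm
import Pool.Agent.Y552.CT.Vn
import Pool.Agent.Y592.CT.Fix
import Pool.Agent.Y809.CT.Rk

/-!
# Project L3, part ALG2 (helper80): eigenvectors for metabelian groups which are not virtually nilpotent
-/

set_option autoImplicit false

namespace Pool.Agent.N80.L3

open Pool.Agent.N600.L3 Pool.Agent.Y552.CT
open scoped commutatorElement
universe u v
open Subgroup

private theorem com_vn (M : Type u) [Group M] : Group.IsVirtuallyNilpotent (M ⧸ commutator M) := by
  have h : Group.IsNilpotent (M ⧸ commutator M) :=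
    (inferInstance : Group.IsNilpotent (Abelianization M))
  exact ⟨⊤, inferInstance, inferInstance⟩

private theorem tors_finite (B : Type u) [AddCommGroup B] [Module.Finite ℤ B] :
    {b : B | ∃ n : ℕ, 0 < n ∧ n • b = 0}.Finite := by
  have h1 : Module.Finite ℤ (Submodule.torsion ℤ B) := inferInstance
  have h2 : Finite (Submodule.torsion ℤ B) :=
    Module.finite_of_fg_torsion _ (Submodule.torsion_isTorsion)
  refine (Set.toFinite (Submodule.torsion ℤ B : Set B)).subset ?_
  rintro b ⟨n, hn, hb⟩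
  refine (Submodule.mem_torsion_iff b).2 ⟨⟨(n : ℤ), ?_⟩, ?_⟩
  · exact mem_nonZeroDivisors_of_ne_zero (by exact_mod_cast hn.ne')
  · change (n : ℤ) • b = 0
    rw [natCast_zsmul, hb]

/-- a common eigenvector -/
private theorem common_eig {G : Type u} [Group G] {V : Type v} [AddCommGroup V] [Module ℂ V]
    [FiniteDimensional ℂ V] (ρ : G →* Module.End ℂ V) (hc : ∀ a b, ρ a * ρ b = ρ b * ρ a)
    (X : Submodule ℂ V) (hX0 : X ≠ ⊥) (hX : ∀ g : G, ∀ x ∈ X, ρ g x ∈ X) :
    ∃ f ∈ X, f ≠ 0 ∧ ∀ g, ∃ c : ℂ, ρ g f = c • f := by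
  obtain ⟨W, ⟨hW0, hWX, hW⟩, hmin⟩ := (wellFounded_lt (α := Submodule ℂ V)).has_min
    {W | W ≠ ⊥ ∧ W ≤ X ∧ ∀ g : G, ∀ x ∈ W, ρ g x ∈ W} ⟨X, hX0, le_rfl, hX⟩
  have hnt : Nontrivial W := Submodule.nontrivial_iff_ne_bot.2 hW0
  have key : ∀ g, ∃ c : ℂ, ∀ x ∈ W, ρ g x = c • x := by
    intro g
    obtain ⟨c, hcc⟩ := Module.End.exists_eigenvalue ((ρ g).restrict (hW g))
    obtain ⟨w, hw⟩ := hcc.exists_hasEigenvector
    refine ⟨c, ?_⟩
    have hE : W ⊓ Module.End.eigenspace (ρ g) c = W := by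
      by_contra hne
      have hlt : W ⊓ Module.End.eigenspace (ρ g) c < W := lt_of_le_of_ne inf_le_left hne
      refine hmin _ ⟨?_, inf_le_left.trans hWX, ?_⟩ hlt
      · rw [Submodule.ne_bot_iff]
        refine ⟨w, ⟨w.2, ?_⟩, ?_⟩
        · rw [SetLike.mem_coe, Module.End.mem_eigenspace_iff]
          have h1 := hw.apply_eq_smul
          exact congrArg Subtype.val h1
        · intro h
          exact hw.2 (Subtype.ext h)
      · rintro h x ⟨hx1, hx2⟩
        refine ⟨hW h x hx1, ?_⟩
        rw [SetLike.mem_coe, Module.End.mem_eigenspace_iff] at hx2 ⊢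
        have h3 := congrArg (fun F : Module.End ℂ V => F x) (hc g h)
        simp only [Module.End.mul_apply] at h3
        rw [h3, hx2, map_smul]
    intro x hx
    rw [← hE] at hx
    exact Module.End.mem_eigenspace_iff.1 hx.2
  obtain ⟨f, hf, hf0⟩ := (Submodule.ne_bot_iff W).1 hW0
  exact ⟨f, hWX hf, hf0, fun g => ⟨(key g).choose, (key g).choose_spec f hf⟩⟩

/-- the character of an eigenvector -/
private theorem exists_char {G : Type u} [Group G] {V : Type v} [AddCommGroup V] [Module ℂ V]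
    (ρ : G →* Module.End ℂ V) (f : V) (hf : f ≠ 0) (h : ∀ g, ∃ c : ℂ, ρ g f = c • f) :
    ∃ χ : G →* ℂˣ, ∀ g, ρ g f = (χ g : ℂ) • f := by
  choose c hc using h
  have hone : c 1 = 1 := by
    have := hc 1
    rw [map_one, Module.End.one_apply] at this
    have h2 : (c 1 - 1) • f = 0 := by rw [sub_smul, one_smul, ← this, sub_self]
    rcases smul_eq_zero.1 h2 with h3 | h3
    · exact sub_eq_zero.1 h3
    · exact absurd h3 hf
  have hmul : ∀ a b, c (a * b) = c a * c b := by
    intro a b
    have h1 := hc (a * b)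
    rw [map_mul, Module.End.mul_apply, hc b, map_smul, hc a, smul_smul] at h1
    have h2 : (c (a * b) - c b * c a) • f = 0 := by rw [sub_smul, ← h1, sub_self]
    rcases smul_eq_zero.1 h2 with h3 | h3
    · rw [sub_eq_zero.1 h3, mul_comm]
    · exact absurd h3 hf
  let c' : G →* ℂ := ⟨⟨c, hone⟩, hmul⟩
  exact ⟨MonoidHom.toHomUnits c', fun g => hc g⟩

private theorem fin_range {G : Type u} [Group G] [Group.FG G] (χ : G →* ℂˣ)
    (h : ∀ g, ∃ n > 0, (χ g) ^ n = 1) : χ.ker.FiniteIndex := by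
  have h1 : Group.FG χ.range := inferInstance
  have h2 : Finite χ.range := by
    refine CommGroup.finite_of_fg_isMulTorsion _ ?_
    rintro ⟨_, g, rfl⟩
    obtain ⟨n, hn, hg⟩ := h g
    rw [isOfFinOrder_iff_pow_eq_one]
    exact ⟨n, hn, Subtype.ext hg⟩
  exact Subgroup.finiteIndex_ker χ

theorem t_alg2 : S_ALG2.{u} := by
  intro M _ _ hab hfg hnv
  classical
  have hQ := com_vn M
  let iC : CommGroup (commutator M) :=
    { (inferInstance : Group (commutator M)) with
      mul_comm := fun a b => Subtype.ext (hab a a.2 b b.2) }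
  have hFG : Group.FG (commutator M) := (Group.fg_iff_subgroup_fg _).2 hfg
  have hFG' : AddGroup.FG (Additive (commutator M)) := inferInstance
  have hMF : Module.Finite ℤ (Additive (commutator M)) := Module.Finite.iff_addGroup_fg.2 hFG'
  obtain ⟨hfd, -, htor, -⟩ := Pool.Agent.Y809.CT.rk (Additive (commutator M))
    (Module.finrank ℤ (Additive (commutator M))) (Module.finrank_eq_rank ℤ _).ge
  have hτ : {a : commutator M | ∀ f : Additive (commutator M) →+ ℂ,
      f (Additive.ofMul a) = 0}.Finite := by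
    have h1 := tors_finite (Additive (commutator M))
    refine Set.Finite.subset (h1.preimage (f := Additive.ofMul)
      (fun a _ b _ h => Additive.ofMul.injective h)) ?_
    intro a ha
    exact htor (Additive.ofMul a) ha
  have hA1 := ac_of_mem (commutator M) hab
  rcases exists_min (ρ := ac (commutator M)) Pool.Agent.Y592.CT.fix (commutator M) hA1 hQ with
    ⟨N, hN, k, hk⟩ | ⟨X, hX0, hX, hmin⟩
  · exact absurd (vn_of_aug (commutator M) hQ hτ N hN hk) hnv
  obtain ⟨f₀, hf₀X, hf₀, hev⟩ := common_eig (ac (commutator M)) (by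
    intro a b
    have h3 : ⁅a, b⁆ ∈ commutator M := Subgroup.commutator_mem_commutator (Subgroup.mem_top a) (Subgroup.mem_top b)
    have h4 : a * b = ⁅a, b⁆ * (b * a) := by
      rw [commutatorElement_def]; group
    rw [← map_mul, ← map_mul, h4, map_mul, hA1 _ h3, one_mul]) X hX0 hX
  obtain ⟨χ, hχ⟩ := exists_char (ac (commutator M)) f₀ hf₀ hev
  refine ⟨χ⁻¹, fun m => if h : m ∈ commutator M then f₀ (Additive.ofMul ⟨m, h⟩) else 0,
    ?_, ?_, ?_, ?_⟩
  · intro x hx y hy
    simp only [dif_pos hx, dif_pos hy, dif_pos (mul_mem hx hy)]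
    rw [← map_add]
    rfl
  · intro m x hx
    have h1 : m * x * m⁻¹ ∈ commutator M := Subgroup.Normal.conj_mem inferInstance x hx m
    simp only [dif_pos hx, dif_pos h1]
    rw [conj_val (commutator M) m f₀ x hx h1, hχ m⁻¹, map_inv, MonoidHom.inv_apply]
    rfl
  · by_contra hcon
    push Not at hcon
    apply hf₀
    ext ⟨a, ha⟩
    have h1 := hcon a ha
    rw [dif_pos ha] at h1
    exact h1
  · by_contra hcon
    push Not at hcon
    have h1 : χ.ker.FiniteIndex := fin_range χ (fun g => by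
      obtain ⟨n, hn, h2⟩ := hcon g
      refine ⟨n, hn, ?_⟩
      rw [MonoidHom.inv_apply, inv_pow, inv_eq_one] at h2
      exact h2)
    refine hf₀ (hmin f₀ hf₀X ⟨χ.ker, h1, ?_⟩)
    intro n hn
    rw [hχ, MonoidHom.mem_ker.1 hn, Units.val_one, one_smul]

end Pool.Agent.N80.L3
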